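import Mathlib

/-!
# An explicit polynomial map of four-space with constant Jacobian determinant: the formulas

The formulas below are the commutative analogue of the relations in the starting file
`Pool/Agent/S03574.lean` (an endomorphism of the second Weyl algebra which is not bijective).
Over any commutative ring and for any elements `X`, `y`, `g`, `D` we define polynomial expressions
`c`, `t`, `tau`, `a` (of degrees `25`, `25`, `50`, `50`) which satisfy, with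
`W = 1 + 4 X y`, `c = X C`,

* `C = J - 6 W K + 4 K ^ 3`,
* `X t = K - W C`,
* `X ^ 4 tau = 1 + 3 W ^ 2 - 12 W (X t) ^ 2 - 12 W ^ 2 C (X t) - 4 W ^ 3 C ^ 2`,
* `X ^ 6 a = W + 2 W ^ 3 - 6 W ^ 2 (X t) ^ 2 - 8 W ^ 3 C (X t) - 3 W ^ 4 C ^ 2`.
-/

set_option autoImplicit false

namespace Pool.Agent.H741JC

variable {A : Type*} [CommRing A] (X y g D : A)

def fk : A := -57 * y ^ 4 - g - 2 * (X * (X * D + y * g))
def fW : A := 1 + 4 * (X * y)
def fp : A := 1 + 6 * (X * y) ^ 2 - 40 * (X * y) ^ 3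
def fK : A := fp X y + X ^ 4 * fk X y g D
def fJ : A := 3 + 18 * (X * y) + 6 * (X * y) ^ 2 + 76 * (X * y) ^ 3 + 2 * (X ^ 4 * g)
def fc1 : A := 1 - 6 * (X * y) + 42 * (X * y) ^ 2 - 308 * (X * y) ^ 3
def fq : A := 6 * y ^ 2 - 40 * (X * y ^ 3)

/-- the remainder of `R` of order two in `X` -/
def fR2 : A := y ^ 6 * (20064 - 17280 * (X * y) + 115200 * (X * y) ^ 2 - 256000 * (X * y) ^ 3)
  - 12 * D + 48 * (y ^ 2 * g) + 48 * (X * y * D)
  + 12 * ((2 * fq X y + X ^ 2 * fq X y ^ 2) * fk X y g D)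
  + 12 * (fp X y * X ^ 2 * fk X y g D ^ 2) + 4 * (X ^ 6 * fk X y g D ^ 3)

def fR : A := (1050 * y ^ 4 - 4 * g) + X * (12 * (y * g) - 4392 * y ^ 5) + X ^ 2 * fR2 X y g D

/-- the remainder of `S` of order two in `X` -/
def fT2 : A := -2 * D - fW X y * fR2 X y g D - 4 * y * (12 * (y * g) - 4392 * y ^ 5)

def fS : A := (125 * y ^ 4 + 3 * g) + X * (2 * (y * g) + 192 * y ^ 5) + X ^ 2 * fT2 X y g D

def fC : A := fc1 X y + X ^ 4 * fR X y g D

def ft0 : A := y * (2 - 12 * (X * y) + 100 * (X * y) ^ 2)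

/-- the second component -/
def ft : A := ft0 X y + X ^ 3 * fS X y g D

/-- the first component -/
def fc : A := X * fC X y g D

/-- the third component -/
def ftau : A :=
  y ^ 4 * (8400 + 49632 * (X * y) + 37824 * (X * y) ^ 2 - 23040 * (X * y) ^ 3
      - 5677056 * (X * y) ^ 4 - 24285184 * (X * y) ^ 5)
    - 12 * (fW X y * X * (2 * (ft0 X y * fS X y g D) + X ^ 3 * fS X y g D ^ 2))
    - 12 * (fW X y ^ 2 * (fc1 X y * fS X y g D + X * fR X y g D * ft X y g D))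
    - 4 * (fW X y ^ 3 * (2 * (fc1 X y * fR X y g D) + X ^ 4 * fR X y g D ^ 2))

/-- `r` in terms of `R2` and `T2` -/
def fr0 (X y g R2 T2 : A) : A :=
  (-8)*T2 + (-6)*R2 + (-240)*y^2*g + 104120*y^6 + (-40)*X*y*T2 + (-52)*X*y*R2 + (-1504)*X*y^3*g
    + 455392*X*y^7 + (-6)*X^2*g^2 + (-32)*X^2*y^2*T2 + (-140)*X^2*y^2*R2 + (-3572)*X^2*y^4*g
    + 397838*X^2*y^8 + (-32)*X^3*y*g^2 + (-80)*X^3*y^3*T2 + (-120)*X^3*y^3*R2
    + (-4888)*X^3*y^5*g + (-22216)*X^3*y^9 + (-4)*X^4*g*T2 + (-40)*X^4*y^2*g^2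
    + (-364)*X^4*y^4*T2 + 220*X^4*y^4*R2 + 7200*X^4*y^6*g + (-4568448)*X^4*y^10
    + (-8)*X^5*y*g*T2 + 8*X^5*y*g*R2 + 352*X^5*y^3*g^2 + (-944)*X^5*y^5*T2 + 992*X^5*y^5*R2
    + (-141312)*X^5*y^7*g + 133632*X^5*y^11 + (-6)*X^6*T2^2 + (-8)*X^6*R2*T2 + (-3)*X^6*R2^2
    + (-352)*X^6*y^2*g*T2 + (-224)*X^6*y^2*g*R2 + (-5376)*X^6*y^4*g^2 + 137472*X^6*y^6*T2
    + 103808*X^6*y^6*R2 + 4423680*X^6*y^8*g + (-898919424)*X^6*y^12 + (-24)*X^7*y*T2^2
    + (-64)*X^7*y*R2*T2 + (-36)*X^7*y*R2^2 + (-1536)*X^7*y^3*g*T2 + (-2176)*X^7*y^3*g*R2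
    + (-27648)*X^7*y^5*g^2 + 562176*X^7*y^7*T2 + 837120*X^7*y^7*R2 + 20238336*X^7*y^9*g
    + (-3703615488)*X^7*y^13 + (-128)*X^8*y^2*R2*T2 + (-144)*X^8*y^2*R2^2 + (-4608)*X^8*y^4*g*R2
    + 1686528*X^8*y^8*R2 + (-192)*X^9*y^3*R2^2

def fr : A := fr0 X y g (fR2 X y g D) (fT2 X y g D)

/-- the fourth component -/
def fa : A := fW X y * fr X y g D

theorem rel_R : fR X y g D =
    y ^ 4 * (1392 - 5760 * (X * y) + 20064 * (X * y) ^ 2 - 17280 * (X * y) ^ 3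
      + 115200 * (X * y) ^ 4 - 256000 * (X * y) ^ 5)
    + 2 * g - 6 * (fW X y * fk X y g D)
    + 4 * (3 * fp X y ^ 2 * fk X y g D + 3 * fp X y * X ^ 4 * fk X y g D ^ 2
      + X ^ 8 * fk X y g D ^ 3) := by
  have h1 : fp X y = 1 + X ^ 2 * fq X y := by unfold fp fq; ring
  have h2 : (12 - 6 * fW X y) * fk X y g D = -342 * y ^ 4 - 6 * g + X * (-12 * (y * g)
      + 24 * y * (57 * y ^ 4 + g)) + X ^ 2 * (-12 * D + 48 * (y ^ 2 * g) + 48 * (X * y * D)) := by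
    unfold fW fk; ring
  unfold fR fR2
  rw [h1]
  linear_combination -h2

theorem rel_C : fC X y g D = fJ X y g - 6 * (fW X y * fK X y g D) + 4 * fK X y g D ^ 3 := by
  unfold fC
  rw [rel_R]
  unfold fJ fK fW fp fc1
  ring

theorem rel_S : fS X y g D = 1232 * y ^ 4 + fk X y g D - fW X y * fR X y g D := by
  unfold fS fT2 fR
  generalize fR2 X y g D = R2
  unfold fk fW
  ring

theorem rel_t : X * ft X y g D = fK X y g D - fW X y * fC X y g D := by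
  unfold ft
  rw [rel_S]
  unfold fK fC
  generalize fR X y g D = R
  generalize fk X y g D = k
  unfold ft0 fp fc1 fW
  ring

theorem rel_tau : X ^ 4 * ftau X y g D = 1 + 3 * fW X y ^ 2 - 12 * (fW X y * (X * ft X y g D) ^ 2)
    - 12 * (fW X y ^ 2 * (fC X y g D * (X * ft X y g D)))
    - 4 * (fW X y ^ 3 * fC X y g D ^ 2) := by
  unfold ftau ft fC
  generalize fR X y g D = R
  generalize fS X y g D = S
  unfold ft0 fc1 fW
  ring

theorem rel_r : X ^ 2 * fr X y g D =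
    y ^ 4 * (7300 + 34784 * (X * y) + 34416 * (X * y) ^ 2 - 17344 * (X * y) ^ 3
      - 4750592 * (X * y) ^ 4 - 18213888 * (X * y) ^ 5)
    - 6 * (fW X y * X * (2 * (ft0 X y * fS X y g D) + X ^ 3 * fS X y g D ^ 2))
    - 8 * (fW X y ^ 2 * (fc1 X y * fS X y g D + X * fR X y g D * ft X y g D))
    - 3 * (fW X y ^ 3 * (2 * (fc1 X y * fR X y g D) + X ^ 4 * fR X y g D ^ 2)) := by
  unfold fr ft fS fR
  generalize fR2 X y g D = R2
  generalize fT2 X y g D = T2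
  unfold fr0 ft0 fc1 fW
  ring

theorem rel_a : X ^ 6 * fa X y g D = fW X y + 2 * fW X y ^ 3
    - 6 * (fW X y ^ 2 * (X * ft X y g D) ^ 2)
    - 8 * (fW X y ^ 3 * (fC X y g D * (X * ft X y g D)))
    - 3 * (fW X y ^ 4 * fC X y g D ^ 2) := by
  have h := rel_r X y g D
  have h1 : X ^ 6 * fa X y g D = X ^ 4 * fW X y * (X ^ 2 * fr X y g D) := by unfold fa; ring
  rw [h1, h]
  unfold ft fC
  generalize fR X y g D = R
  generalize fS X y g D = S
  unfold ft0 fc1 fW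
  ring

end Pool.Agent.H741JC
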