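import Mathlib

/-!
# From a Keller map to a map with unipotent Jacobian matrices

Let `F = X + F_2 + ... + F_{N+1}` be a polynomial map of `n`-space, `F_d` homogeneous of degree `d`
(up to a constant), with `det F' ≠ 0` at all complex points. The map

`G(z_0, ..., z_{N-1}) = (z_0 + z_1 + F_2(z_0), z_1 + z_2 - F_3(z_0), ...,
  z_{N-1} ± F_{N+1}(z_0))`

has only the eigenvalue `1` at every real point, and it identifies two points if `F` does.
-/

set_option autoImplicit false

namespace Pool.Agent.H741JC

open MvPolynomial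

section lemmas
variable {n : ℕ}

theorem aeval_mul_of_hom {q : MvPolynomial (Fin n) ℝ} {d : ℕ} (hq : q.IsHomogeneous d) (c : ℂ)
    (w : Fin n → ℂ) : aeval (fun i => c * w i) q = c ^ d * aeval w q := by
  rw [aeval_def, aeval_def, eval₂_eq', eval₂_eq', Finset.mul_sum]
  refine Finset.sum_congr rfl fun m hm => ?_
  have hd := hq.degree_eq_sum_deg_support hm
  have hd' : ∑ i, m i = d := by
    rw [hd]
    symm
    apply Finset.sum_subset (Finset.subset_univ _)
    intro i _ hi
    simpa using hi
  simp_rw [mul_pow, Finset.prod_mul_distrib, Finset.prod_pow_eq_pow_sum, hd']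
  ring

theorem eval_ofReal (q : MvPolynomial (Fin n) ℝ) (w : Fin n → ℝ) :
    aeval (fun i => (w i : ℂ)) q = ((eval w q : ℝ) : ℂ) := by
  have h := eval₂_comp_left Complex.ofRealHom (RingHom.id ℝ) w q
  rw [aeval_def]
  exact h.symm

theorem hasFDerivAt_eval (q : MvPolynomial (Fin n) ℝ) (w : Fin n → ℝ) :
    HasFDerivAt (fun w : Fin n → ℝ => eval w q)
      (∑ j, eval w (pderiv j q) • (ContinuousLinearMap.proj j : (Fin n → ℝ) →L[ℝ] ℝ)) w := by
  classical
  induction q using MvPolynomial.induction_on with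
  | C a => simpa using hasFDerivAt_const a w
  | add p q hp hq =>
    simp only [map_add]
    refine (hp.add hq).congr_fderiv ?_
    ext i
    simp [add_mul, Finset.sum_add_distrib]
  | mul_X p i hp =>
    have h1 : HasFDerivAt (fun w : Fin n → ℝ => w i)
      (ContinuousLinearMap.proj i : (Fin n → ℝ) →L[ℝ] ℝ) w := hasFDerivAt_apply i w
    simp only [map_mul, eval_X]
    refine (hp.mul h1).congr_fderiv ?_
    ext k
    simp only [Derivation.leibniz, smul_eq_mul, map_add, map_mul, eval_X, pderiv_X,
      ContinuousLinearMap.add_apply, ContinuousLinearMap.smul_apply, ContinuousLinearMap.proj_apply,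
      ContinuousLinearMap.sum_apply, add_mul, Finset.sum_add_distrib, Finset.mul_sum]
    congr 1
    · rw [Finset.sum_eq_single i]
      · simp
      · intro b _ hb
        rw [Pi.single_eq_of_ne' hb]
        simp
      · simp
    · exact Finset.sum_congr rfl fun j _ => by ring

/-- derivative of the linear component -/
theorem pderiv_comp_one (q : MvPolynomial (Fin n) ℝ) (j : Fin n) :
    pderiv j (homogeneousComponent 1 q) = C (coeff 0 (pderiv j q)) := by
  classical
  ext m
  rw [coeff_pderiv, coeff_homogeneousComponent, coeff_C, coeff_pderiv]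
  by_cases hm : m = 0
  · subst hm
    simp
  · rw [if_neg, if_neg (Ne.symm hm), zero_mul]
    rw [map_add, Finsupp.degree_single]
    intro h
    apply hm
    have : m.degree = 0 := by omega
    exact (Finsupp.degree_eq_zero_iff m).1 this

theorem sum_comp (q : MvPolynomial (Fin n) ℝ) (M : ℕ) (hM : q.totalDegree ≤ M) :
    q = ∑ d ∈ Finset.range (M + 1), homogeneousComponent d q := by
  conv_lhs => rw [← sum_homogeneousComponent q]
  apply Finset.sum_subset
  · intro d hd
    simp only [Finset.mem_range] at hd ⊢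
    omega
  · intro d _ hd
    simp only [Finset.mem_range, not_lt] at hd
    exact homogeneousComponent_eq_zero _ _ (by omega)

/-- the Jacobian matrix at the multiples of a point -/
theorem aeval_pderiv_smul (q : MvPolynomial (Fin n) ℝ) (N : ℕ) (hM : q.totalDegree ≤ N + 1)
    (j : Fin n) (c : ℂ) (w : Fin n → ℂ) :
    aeval (fun i => c * w i) (pderiv j q) = ((coeff 0 (pderiv j q) : ℝ) : ℂ) +
      ∑ k ∈ Finset.range N, c ^ (k + 1) * aeval w (pderiv j (homogeneousComponent (k + 2) q)) := by
  conv_lhs => rw [sum_comp q (N + 1) hM]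
  rw [map_sum, map_sum, Finset.sum_range_succ', Finset.sum_range_succ', homogeneousComponent_zero,
    pderiv_C, map_zero, add_zero, zero_add, pderiv_comp_one]
  rw [add_comm]
  congr 1
  · simp
  · refine Finset.sum_congr rfl fun k _ => ?_
    exact aeval_mul_of_hom (homogeneousComponent_isHomogeneous (k + 2) q).pderiv c w

end lemmas

section main
variable {n : ℕ} (N : ℕ) (hN : 0 < N) (P : Fin n → MvPolynomial (Fin n) ℝ)

/-- the homogeneous component of degree `k + 2` -/
noncomputable def qq (k : ℕ) (i : Fin n) : MvPolynomial (Fin n) ℝ :=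
  homogeneousComponent (k + 2) (P i)

/-- the first block -/
def blk (j : Fin n) : Fin (N * n) := finProdFinEquiv (⟨0, hN⟩, j)

/-- the block number -/
def bn (m : Fin (N * n)) : ℕ := (finProdFinEquiv.symm m).1

/-- the index in the block -/
def bi (m : Fin (N * n)) : Fin n := (finProdFinEquiv.symm m).2

/-- the same index in the next block -/
def nx (m : Fin (N * n)) (h : bn N m + 1 < N) : Fin (N * n) :=
  finProdFinEquiv (⟨bn N m + 1, h⟩, bi N m)

/-- the map `G` -/
noncomputable def GG (x : Fin (N * n) → ℝ) (m : Fin (N * n)) : ℝ :=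
  x m + (if h : bn N m + 1 < N then x (nx N m h) else 0) +
    (-1) ^ bn N m * eval (fun j => x (blk N hN j)) (qq P (bn N m) (bi N m))

/-- the derivative of `G` -/
noncomputable def GD (x : Fin (N * n) → ℝ) : (Fin (N * n) → ℝ) →L[ℝ] (Fin (N * n) → ℝ) :=
  ContinuousLinearMap.pi fun m =>
    (ContinuousLinearMap.proj m : (Fin (N * n) → ℝ) →L[ℝ] ℝ) +
    (if h : bn N m + 1 < N then (ContinuousLinearMap.proj (nx N m h) :
      (Fin (N * n) → ℝ) →L[ℝ] ℝ) else 0) +
    ((-1 : ℝ) ^ bn N m) • ∑ j, eval (fun j => x (blk N hN j)) (pderiv j (qq P (bn N m) (bi N m))) •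
      (ContinuousLinearMap.proj (blk N hN j) : (Fin (N * n) → ℝ) →L[ℝ] ℝ)

theorem hasFDerivAt_GG (x : Fin (N * n) → ℝ) : HasFDerivAt (GG N hN P) (GD N hN P x) x := by
  rw [hasFDerivAt_pi']
  intro m
  have h1 : HasFDerivAt (fun x : Fin (N * n) → ℝ => x m)
    (ContinuousLinearMap.proj m : (Fin (N * n) → ℝ) →L[ℝ] ℝ) x := hasFDerivAt_apply m x
  have h2 : HasFDerivAt (fun x : Fin (N * n) → ℝ => if h : bn N m + 1 < N then x (nx N m h) else 0)
    (if h : bn N m + 1 < N then (ContinuousLinearMap.proj (nx N m h) :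
      (Fin (N * n) → ℝ) →L[ℝ] ℝ) else 0) x := by
    by_cases h : bn N m + 1 < N
    · simp only [h, dif_pos]
      exact hasFDerivAt_apply _ x
    · simp only [h, dif_neg, not_false_iff]
      exact hasFDerivAt_const _ x
  have h3 : HasFDerivAt (fun x : Fin (N * n) → ℝ => fun j => x (blk N hN j))
      (ContinuousLinearMap.pi fun j => (ContinuousLinearMap.proj (blk N hN j) :
        (Fin (N * n) → ℝ) →L[ℝ] ℝ)) x := by
    rw [hasFDerivAt_pi']
    intro j
    exact hasFDerivAt_apply _ x
  have h4 := (hasFDerivAt_eval (qq P (bn N m) (bi N m)) (fun j => x (blk N hN j))).comp x h3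
  have h5 := (h1.add h2).add (h4.const_mul ((-1 : ℝ) ^ bn N m))
  refine h5.congr_fderiv ?_
  ext y
  simp [GD]

theorem contDiff_GG : ContDiff ℝ 1 (GG N hN P) := by
  rw [contDiff_pi]
  intro m
  unfold GG
  refine ContDiff.add (ContDiff.add (contDiff_apply ℝ ℝ m) ?_) (contDiff_const.mul ?_)
  · by_cases h : bn N m + 1 < N
    · simp only [h, dif_pos]
      exact contDiff_apply ℝ ℝ _
    · simp only [h, dif_neg, not_false_iff]
      exact contDiff_const
  · generalize qq P (bn N m) (bi N m) = q
    induction q using MvPolynomial.induction_on with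
    | C a => simpa using contDiff_const
    | add p q hp hq =>
      simp only [map_add]
      exact hp.add hq
    | mul_X p i hp =>
      simp only [map_mul, eval_X]
      exact hp.mul (contDiff_apply ℝ ℝ _)

open Matrix

/-- `G'` applied to a complex vector -/
theorem mulVec_GD (x : Fin (N * n) → ℝ) (v : Fin (N * n) → ℂ) (m : Fin (N * n)) :
    ((LinearMap.toMatrix' ((GD N hN P x : (Fin (N * n) → ℝ) →L[ℝ] (Fin (N * n) → ℝ)) :
      (Fin (N * n) → ℝ) →ₗ[ℝ] (Fin (N * n) → ℝ))).map (algebraMap ℝ ℂ) *ᵥ v) m =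
    v m + (if h : bn N m + 1 < N then v (nx N m h) else 0) + (-1) ^ bn N m *
      ∑ j, ((eval (fun j => x (blk N hN j)) (pderiv j (qq P (bn N m) (bi N m))) : ℝ) : ℂ) *
        v (blk N hN j) := by
  classical
  have hM : ∀ l, (LinearMap.toMatrix' ((GD N hN P x : (Fin (N * n) → ℝ) →L[ℝ]
      (Fin (N * n) → ℝ)) : (Fin (N * n) → ℝ) →ₗ[ℝ] (Fin (N * n) → ℝ))) m l =
      (if m = l then 1 else 0) + (if h : bn N m + 1 < N then (if nx N m h = l then 1 else 0)
        else 0) + (-1) ^ bn N m * ∑ j, eval (fun j => x (blk N hN j))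
          (pderiv j (qq P (bn N m) (bi N m))) * (if blk N hN j = l then 1 else 0) := by
    intro l
    rw [LinearMap.toMatrix'_apply]
    by_cases h : bn N m + 1 < N
    · simp [GD, h, Pi.single_apply]
    · simp [GD, h, Pi.single_apply]
  simp only [mulVec, dotProduct, Matrix.map_apply, hM]
  simp only [map_add, map_mul, map_sum, add_mul, Finset.sum_add_distrib]
  congr 1
  · congr 1
    · simp
    · by_cases h : bn N m + 1 < N
      · simp [h]
      · simp [h]
  · simp only [Finset.sum_mul, Finset.mul_sum, mul_assoc]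
    rw [Finset.sum_comm]
    refine Finset.sum_congr rfl fun j _ => ?_
    rw [Finset.sum_eq_single (blk N hN j)]
    · simp
    · intro b _ hb
      rw [if_neg (Ne.symm hb)]
      simp
    · simp

/-- **All eigenvalues are equal to one.** -/
theorem eigen_one (hdeg : ∀ i, (P i).totalDegree ≤ N + 1)
    (hL : ∀ i j, coeff 0 (pderiv j (P i)) = if i = j then 1 else 0)
    (hK : ∀ w : Fin n → ℂ, (Matrix.of fun i j => aeval w (pderiv j (P i))).det ≠ 0)
    (x : Fin (N * n) → ℝ) (z : ℂ)
    (hz : Polynomial.aeval z (LinearMap.toMatrix' ((GD N hN P x :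
      (Fin (N * n) → ℝ) →L[ℝ] (Fin (N * n) → ℝ)) :
      (Fin (N * n) → ℝ) →ₗ[ℝ] (Fin (N * n) → ℝ))).charpoly = 0) : z = 1 := by
  classical
  by_contra hz1
  set T := LinearMap.toMatrix' ((GD N hN P x : (Fin (N * n) → ℝ) →L[ℝ] (Fin (N * n) → ℝ)) :
      (Fin (N * n) → ℝ) →ₗ[ℝ] (Fin (N * n) → ℝ)) with hT
  have h1 : (Matrix.scalar _ z - T.map (algebraMap ℝ ℂ)).det = 0 := by
    rw [← Matrix.eval_charpoly, Matrix.charpoly_map, ← Polynomial.eval₂_eq_eval_map]
    exact hz
  obtain ⟨v, hv0, hv⟩ := Matrix.exists_mulVec_eq_zero_iff.2 h1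
  have hv1 : ∀ m, (T.map (algebraMap ℝ ℂ) *ᵥ v) m = z * v m := by
    intro m
    have := congrFun hv m
    rw [Matrix.sub_mulVec] at this
    simp only [Pi.sub_apply, Pi.zero_apply, sub_eq_zero] at this
    rw [← this]
    simp [Matrix.scalar_apply, Matrix.mulVec_diagonal]
  set A : ℕ → Fin n → Fin n → ℂ := fun k i j =>
    ((eval (fun j => x (blk N hN j)) (pderiv j (qq P k i)) : ℝ) : ℂ) with hA
  set U : ℕ → Fin n → ℂ := fun k i => if h : k < N then v (finProdFinEquiv (⟨k, h⟩, i)) else 0
    with hU
  have hUm : ∀ m, v m = U (bn N m) (bi N m) := by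
    intro m
    have h : bn N m < N := (finProdFinEquiv.symm m).1.2
    simp only [hU, h, dif_pos]
    congr 1
    exact (finProdFinEquiv.apply_symm_apply m).symm
  have hU0 : ∀ j, v (blk N hN j) = U 0 j := by
    intro j
    simp only [hU, hN, dif_pos]
    rfl
  have rec1 : ∀ k, k < N → ∀ i, U (k + 1) i = (z - 1) * U k i -
      (-1) ^ k * ∑ j, A k i j * U 0 j := by
    intro k hk i
    set m : Fin (N * n) := finProdFinEquiv (⟨k, hk⟩, i) with hm
    have e1 : finProdFinEquiv.symm m = (⟨k, hk⟩, i) := finProdFinEquiv.symm_apply_apply _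
    have hb : bn N m = k := by unfold bn; rw [e1]
    have hi : bi N m = i := by unfold bi; rw [e1]
    have h := hv1 m
    rw [hT, mulVec_GD] at h
    have e2 : (if h : bn N m + 1 < N then v (nx N m h) else 0) = U (k + 1) i := by
      simp only [hU]
      by_cases h' : k + 1 < N
      · have h'' : bn N m + 1 < N := by rw [hb]; exact h'
        rw [dif_pos h', dif_pos h'']
        congr 1
        unfold nx
        congr 1
        rw [hi]
        congr 1
        exact Fin.ext (by simp [hb])
      · have h'' : ¬ bn N m + 1 < N := by rw [hb]; exact h'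
        rw [dif_neg h', dif_neg h'']
    rw [e2, hUm m, hb, hi] at h
    simp only [hU0] at h
    have h' : U k i + U (k + 1) i + (-1) ^ k * ∑ j, A k i j * U 0 j = z * U k i := h
    linear_combination h'
  have rec2 : ∀ k, k ≤ N → ∀ i, U k i = (-1) ^ k * ((1 - z) ^ k * U 0 i +
      ∑ l ∈ Finset.range k, (1 - z) ^ (k - 1 - l) * ∑ j, A l i j * U 0 j) := by
    intro k
    induction k with
    | zero => intro _ i; simp
    | succ k ih =>
      intro hk i
      rw [rec1 k hk i, ih (by omega) i, Finset.sum_range_succ]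
      have h1 : ∀ l ∈ Finset.range k, (1 - z) ^ (k + 1 - 1 - l) * ∑ j, A l i j * U 0 j =
          (1 - z) * ((1 - z) ^ (k - 1 - l) * ∑ j, A l i j * U 0 j) := by
        intro l hl
        rw [Finset.mem_range] at hl
        rw [show k + 1 - 1 - l = (k - 1 - l) + 1 by omega, pow_succ]
        ring
      rw [Finset.sum_congr rfl h1, ← Finset.mul_sum]
      rw [show k + 1 - 1 - k = 0 by omega]
      ring
  have hμ : (1 - z) ≠ 0 := fun h => hz1 (by linear_combination -h)
  have hUN : ∀ i, U N i = 0 := by intro i; simp [hU]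
  have hker : (Matrix.of fun i j => aeval (fun l => (1 - z)⁻¹ * ((x (blk N hN l) : ℝ) : ℂ))
      (pderiv j (P i))) *ᵥ (U 0) = 0 := by
    ext i
    have hN' := rec2 N le_rfl i
    rw [hUN i] at hN'
    have hs : (-1 : ℂ) ^ N ≠ 0 := pow_ne_zero _ (by norm_num)
    have h2 : (1 - z) ^ N * U 0 i +
      ∑ l ∈ Finset.range N, (1 - z) ^ (N - 1 - l) * ∑ j, A l i j * U 0 j = 0 := by
      rcases mul_eq_zero.1 hN'.symm with h | h
      · exact absurd h hs
      · exact h
    have h3 : (1 - z) ^ N * ∑ j, aeval (fun l => (1 - z)⁻¹ * ((x (blk N hN l) : ℝ) : ℂ))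
      (pderiv j (P i)) * U 0 j = 0 := by
      rw [← h2]
      simp_rw [aeval_pderiv_smul (P i) N (hdeg i)]
      simp_rw [add_mul, Finset.sum_add_distrib, mul_add]
      congr 1
      · congr 1
        rw [Finset.sum_eq_single i]
        · rw [hL i i, if_pos rfl]
          simp
        · intro j _ hj
          rw [hL i j, if_neg (Ne.symm hj)]
          simp
        · simp
      · simp_rw [Finset.sum_mul]
        rw [Finset.sum_comm, Finset.mul_sum]
        refine Finset.sum_congr rfl fun l hl => ?_
        rw [Finset.mem_range] at hl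
        rw [Finset.mul_sum, Finset.mul_sum]
        refine Finset.sum_congr rfl fun j _ => ?_
        have e3 : aeval (fun l => ((x (blk N hN l) : ℝ) : ℂ))
            (pderiv j (homogeneousComponent (l + 2) (P i))) = A l i j := by
          rw [hA]
          exact eval_ofReal _ _
        rw [e3]
        have e4 : (1 - z) ^ N = (1 - z) ^ (N - 1 - l) * (1 - z) ^ (l + 1) := by
          rw [← pow_add]
          congr 1
          omega
        rw [e4]
        have e5 : (1 - z) ^ (l + 1) * (1 - z)⁻¹ ^ (l + 1) = 1 := by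
          rw [← mul_pow, mul_inv_cancel₀ hμ, one_pow]
        linear_combination ((1 - z) ^ (N - 1 - l) * A l i j * U 0 j) * e5
    rcases mul_eq_zero.1 h3 with h | h
    · exact absurd h (pow_ne_zero _ hμ)
    · simpa [mulVec, dotProduct] using h
  have hU00 : U 0 = 0 := Matrix.eq_zero_of_mulVec_eq_zero (hK _) hker
  apply hv0
  ext m
  have hm : bn N m ≤ N := le_of_lt (finProdFinEquiv.symm m).1.2
  rw [hUm m, rec2 _ hm]
  simp [hU00]

/-- **The map `G` identifies two points if `F` does.** -/
theorem not_injective_GG (hdeg : ∀ i, (P i).totalDegree ≤ N + 1)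
    (hL : ∀ i j, coeff 0 (pderiv j (P i)) = if i = j then 1 else 0)
    (a b : Fin n → ℝ) (hab : a ≠ b) (hF : ∀ i, eval a (P i) = eval b (P i)) :
    ¬ Function.Injective (GG N hN P) := by
  classical
  -- the value of `P i` in terms of the components
  have hval : ∀ (c : Fin n → ℝ) i, eval c (P i) = coeff 0 (P i) + c i +
      ∑ k ∈ Finset.range N, eval c (qq P k i) := by
    intro c i
    conv_lhs => rw [sum_comp (P i) (N + 1) (hdeg i)]
    rw [map_sum, Finset.sum_range_succ', Finset.sum_range_succ', homogeneousComponent_zero, eval_C]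
    have h1 : homogeneousComponent 1 (P i) = X i := by
      have hE := (homogeneousComponent_isHomogeneous 1 (P i)).sum_X_mul_pderiv
      rw [one_smul] at hE
      rw [← hE]
      simp_rw [pderiv_comp_one, hL i]
      rw [Finset.sum_eq_single i]
      · simp
      · intro j _ hj
        rw [if_neg (Ne.symm hj)]
        simp
      · simp
    rw [zero_add, h1, eval_X]
    unfold qq
    ring
  -- the chain of auxiliary blocks
  set Y : (Fin n → ℝ) → ℕ → Fin n → ℝ := fun c k i =>
    if k = 0 then c i else (-1) ^ (k + 1) * ∑ l ∈ Finset.Ico k N, eval c (qq P l i) with hY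
  set V : (Fin n → ℝ) → (Fin (N * n) → ℝ) := fun c m => Y c (bn N m) (bi N m) with hV
  have hVe : ∀ c k (hk : k < N) i, V c (finProdFinEquiv (⟨k, hk⟩, i)) = Y c k i := by
    intro c k hk i
    simp only [hV, bn, bi, finProdFinEquiv.symm_apply_apply]
  have hV0 : ∀ c j, V c (blk N hN j) = c j := by
    intro c j
    unfold blk
    rw [hVe]
    simp [hY]
  have hnext : ∀ c m, (if h : bn N m + 1 < N then V c (nx N m h) else 0) =
      (-1) ^ bn N m * ∑ l ∈ Finset.Ico (bn N m + 1) N, eval c (qq P l (bi N m)) := by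
    intro c m
    by_cases h : bn N m + 1 < N
    · rw [dif_pos h]
      unfold nx
      rw [hVe]
      simp only [hY, Nat.succ_ne_zero, if_false, pow_succ]
      ring
    · rw [dif_neg h, Finset.Ico_eq_empty (by omega)]
      simp
  have hG : ∀ c m, GG N hN P (V c) m =
      if bn N m = 0 then eval c (P (bi N m)) - coeff 0 (P (bi N m)) else 0 := by
    intro c m
    have hm : bn N m < N := (finProdFinEquiv.symm m).1.2
    unfold GG
    rw [hnext]
    simp only [hV0]
    have e1 : V c m = Y c (bn N m) (bi N m) := rfl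
    rw [e1]
    by_cases h : bn N m = 0
    · rw [if_pos h, h]
      simp only [hY, if_true, pow_zero, one_mul]
      rw [hval c (bi N m)]
      rw [Finset.range_eq_Ico, Finset.sum_eq_sum_Ico_succ_bot hN]
      ring
    · rw [if_neg h]
      simp only [hY, h, if_false]
      rw [Finset.sum_eq_sum_Ico_succ_bot hm, pow_succ]
      ring
  intro hinj
  apply hab
  have h1 : V a = V b := by
    apply hinj
    ext m
    rw [hG, hG, hF]
  ext j
  rw [← hV0 a j, ← hV0 b j, h1]

end main

end Pool.Agent.H741JC
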