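import Pool.Agent.H741JC.Base

/-!
# The Jacobian determinant of the map is the constant `64`
-/

set_option autoImplicit false

namespace Pool.Agent.H741JC

section der
variable {k A : Type*} [CommRing k] [CommRing A] [Algebra k A] (δ : Derivation k A A)
  (X y g D : A)

theorem d2 : δ (2 : A) = 0 := by simpa using δ.map_natCast 2
theorem d3 : δ (3 : A) = 0 := by simpa using δ.map_natCast 3
theorem d4 : δ (4 : A) = 0 := by simpa using δ.map_natCast 4
theorem d6 : δ (6 : A) = 0 := by simpa using δ.map_natCast 6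
theorem d8 : δ (8 : A) = 0 := by simpa using δ.map_natCast 8
theorem d12 : δ (12 : A) = 0 := by simpa using δ.map_natCast 12

theorem d_C {C W K J : A} (h : C = J - 6 * (W * K) + 4 * K ^ 3) :
    δ C = δ J - 6 * K * δ W + (12 * K ^ 2 - 6 * W) * δ K := by
  rw [h]
  simp only [map_add, map_sub, Derivation.leibniz, Derivation.leibniz_pow, smul_eq_mul, d2, d3, d4, d6, d8, d12,
    nsmul_eq_mul]
  push_cast
  ring

theorem d_t {X t C W K : A} (h : X * t = K - W * C) :
    X * δ t = - t * δ X - C * δ W + δ K - W * δ C := by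
  have h1 := congrArg δ h
  simp only [map_add, map_sub, Derivation.leibniz, Derivation.leibniz_pow, smul_eq_mul, d2, d3, d4, d6, d8, d12,
    nsmul_eq_mul] at h1
  linear_combination h1

theorem d_tau {X t C W K tau : A} (h : X * t = K - W * C)
    (h3 : X ^ 4 * tau = 1 + 3 * W ^ 2 - 12 * (W * (X * t) ^ 2) - 12 * (W ^ 2 * (C * (X * t)))
      - 4 * (W ^ 3 * C ^ 2)) :
    X ^ 4 * δ tau = - 4 * X ^ 3 * tau * δ X + (6 * W - 12 * (X * t) ^ 2) * δ W
      + (-24 * W * (X * t) - 12 * W ^ 2 * C) * δ K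
      + (12 * W ^ 2 * (X * t) + 4 * W ^ 3 * C) * δ C := by
  have h1 := congrArg δ h3
  have h2 := congrArg δ h
  simp only [map_add, map_sub, Derivation.leibniz, Derivation.leibniz_pow, smul_eq_mul, d2, d3, d4, d6, d8, d12,
    nsmul_eq_mul, Derivation.map_one_eq_zero] at h1 h2
  push_cast at h1
  linear_combination h1 + (-24 * W * (X * t) - 12 * W ^ 2 * C) * h2

theorem d_a {X t C W K a : A} (h : X * t = K - W * C)
    (h4 : X ^ 6 * a = W + 2 * W ^ 3 - 6 * (W ^ 2 * (X * t) ^ 2) - 8 * (W ^ 3 * (C * (X * t)))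
      - 3 * (W ^ 4 * C ^ 2)) :
    X ^ 6 * δ a = - 6 * X ^ 5 * a * δ X
      + (1 + 6 * W ^ 2 - 12 * W * (X * t) ^ 2 - 12 * W ^ 2 * C * (X * t) - 4 * W ^ 3 * C ^ 2) * δ W
      + (-12 * W ^ 2 * (X * t) - 8 * W ^ 3 * C) * δ K
      + (4 * W ^ 3 * (X * t) + 2 * W ^ 4 * C) * δ C := by
  have h1 := congrArg δ h4
  have h2 := congrArg δ h
  simp only [map_add, map_sub, Derivation.leibniz, Derivation.leibniz_pow, smul_eq_mul, d2, d3, d4, d6, d8, d12,
    nsmul_eq_mul, Derivation.map_one_eq_zero] at h1 h2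
  push_cast at h1
  linear_combination h1 + (-12 * W ^ 2 * (X * t) - 8 * W ^ 3 * C) * h2

end der

section det
variable {A : Type*} [CommRing A]

/-- The linear algebra of the four gradients. -/
theorem det_aux (X t C W K tau a : A) (dX dW dK dC dt dtau da : Fin 4 → A)
    (h3 : X ^ 4 * tau = 1 + 3 * W ^ 2 - 12 * (W * (X * t) ^ 2) - 12 * (W ^ 2 * (C * (X * t)))
      - 4 * (W ^ 3 * C ^ 2))
    (h4 : X ^ 6 * a = W + 2 * W ^ 3 - 6 * (W ^ 2 * (X * t) ^ 2) - 8 * (W ^ 3 * (C * (X * t)))
      - 3 * (W ^ 4 * C ^ 2))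
    (e1 : ∀ j, X * dt j = - t * dX j - C * dW j + dK j - W * dC j)
    (e2 : ∀ j, X ^ 4 * dtau j = - 4 * X ^ 3 * tau * dX j + (6 * W - 12 * (X * t) ^ 2) * dW j
      + (-24 * W * (X * t) - 12 * W ^ 2 * C) * dK j
      + (12 * W ^ 2 * (X * t) + 4 * W ^ 3 * C) * dC j)
    (e3 : ∀ j, X ^ 6 * da j = - 6 * X ^ 5 * a * dX j
      + (1 + 6 * W ^ 2 - 12 * W * (X * t) ^ 2 - 12 * W ^ 2 * C * (X * t) - 4 * W ^ 3 * C ^ 2) * dW j
      + (-12 * W ^ 2 * (X * t) - 8 * W ^ 3 * C) * dK j
      + (4 * W ^ 3 * (X * t) + 2 * W ^ 4 * C) * dC j) :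
    X ^ 11 * (Matrix.of ![fun j => C * dX j + X * dC j, dt, dtau, da]).det =
      4 * (Matrix.of ![dX, dW, dK, dC]).det := by
  have key : Matrix.diagonal ![1, X, X ^ 4, X ^ 6] *
      (Matrix.of ![fun j => C * dX j + X * dC j, dt, dtau, da]) =
      Matrix.of ![![C, 0, 0, X], ![-t, -C, 1, -W],
        ![- 4 * X ^ 3 * tau, 6 * W - 12 * (X * t) ^ 2, -24 * W * (X * t) - 12 * W ^ 2 * C,
          12 * W ^ 2 * (X * t) + 4 * W ^ 3 * C],
        ![- 6 * X ^ 5 * a, 1 + 6 * W ^ 2 - 12 * W * (X * t) ^ 2 - 12 * W ^ 2 * C * (X * t)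
            - 4 * W ^ 3 * C ^ 2, -12 * W ^ 2 * (X * t) - 8 * W ^ 3 * C,
          4 * W ^ 3 * (X * t) + 2 * W ^ 4 * C]] * Matrix.of ![dX, dW, dK, dC] := by
    ext i j
    rw [Matrix.diagonal_mul, Matrix.mul_apply, Fin.sum_univ_four]
    fin_cases i
    · simp
    · have := e1 j
      simp at this ⊢
      linear_combination this
    · have := e2 j
      simp at this ⊢
      linear_combination this
    · have := e3 j
      simp at this ⊢
      linear_combination this
  have h := congrArg Matrix.det key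
  rw [Matrix.det_mul, Matrix.det_mul, Matrix.det_diagonal, Fin.prod_univ_four] at h
  simp only [Matrix.cons_val_zero, Matrix.cons_val_one, Matrix.cons_val] at h
  have hB : (Matrix.of ![![C, 0, 0, X], ![-t, -C, 1, -W],
        ![- 4 * X ^ 3 * tau, 6 * W - 12 * (X * t) ^ 2, -24 * W * (X * t) - 12 * W ^ 2 * C,
          12 * W ^ 2 * (X * t) + 4 * W ^ 3 * C],
        ![- 6 * X ^ 5 * a, 1 + 6 * W ^ 2 - 12 * W * (X * t) ^ 2 - 12 * W ^ 2 * C * (X * t)
            - 4 * W ^ 3 * C ^ 2, -12 * W ^ 2 * (X * t) - 8 * W ^ 3 * C,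
          4 * W ^ 3 * (X * t) + 2 * W ^ 4 * C]] : Matrix (Fin 4) (Fin 4) A).det = 4 := by
    rw [Matrix.det_succ_row_zero]
    simp [Fin.sum_univ_succ, Matrix.det_fin_three, Fin.succAbove]
    linear_combination (4 * ((1 + 6 * W ^ 2 - 12 * W * (X * t) ^ 2 - 12 * W ^ 2 * C * (X * t)
      - 4 * W ^ 3 * C ^ 2) - 12 * W ^ 2 * (X * t) * C - 8 * W ^ 3 * C ^ 2)) * h3
      - 6 * (6 * W - 12 * (X * t) ^ 2 - 24 * W * (X * t) * C - 12 * W ^ 2 * C ^ 2) * h4
  rw [hB] at h
  linear_combination h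

/-- The gradients of `X`, `W`, `K`, `C`. -/
theorem det_base (X W K : A) (dX dW dK dC : Fin 4 → A) (x0 : dX 0 = 1) (x1 : dX 1 = 0)
    (x2 : dX 2 = 0) (x3 : dX 3 = 0) (w1 : dW 1 = 4 * X) (w2 : dW 2 = 0) (w3 : dW 3 = 0)
    (k3 : dK 3 = -2 * X ^ 6) (c2 : dC 2 = 2 * X ^ 4 + (12 * K ^ 2 - 6 * W) * dK 2)
    (c3 : dC 3 = (12 * K ^ 2 - 6 * W) * dK 3) :
    (Matrix.of ![dX, dW, dK, dC]).det = 16 * X ^ 11 := by
  rw [Matrix.det_succ_row_zero]
  simp [Fin.sum_univ_succ, Matrix.det_fin_three, Fin.succAbove, x0, x1, x2, x3, w1, w2, w3, c2, c3]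
  rw [k3]
  ring

end det

section poly
open MvPolynomial

variable (k : Type*) [CommRing k]

/-- The components of the map. -/
noncomputable def PP : Fin 4 → MvPolynomial (Fin 4) k :=
  ![fc (X 0) (X 1) (X 2) (X 3), ft (X 0) (X 1) (X 2) (X 3), ftau (X 0) (X 1) (X 2) (X 3),
    fa (X 0) (X 1) (X 2) (X 3)]

theorem keller [IsDomain k] : (Matrix.of fun i j => pderiv j (PP k i)).det = 64 := by
  set x : MvPolynomial (Fin 4) k := X 0 with hx
  set y : MvPolynomial (Fin 4) k := X 1 with hy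
  set g : MvPolynomial (Fin 4) k := X 2 with hg
  set D : MvPolynomial (Fin 4) k := X 3 with hD
  have hC := rel_C x y g D
  have ht := rel_t x y g D
  have htau := rel_tau x y g D
  have ha := rel_a x y g D
  have h := det_aux x (ft x y g D) (fC x y g D) (fW x y) (fK x y g D) (ftau x y g D) (fa x y g D)
    (fun j => pderiv j x) (fun j => pderiv j (fW x y)) (fun j => pderiv j (fK x y g D))
    (fun j => pderiv j (fC x y g D)) (fun j => pderiv j (ft x y g D))
    (fun j => pderiv j (ftau x y g D)) (fun j => pderiv j (fa x y g D)) htau ha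
    (fun j => d_t (pderiv j) ht) (fun j => d_tau (pderiv j) ht htau)
    (fun j => d_a (pderiv j) ht ha)
  have e : (Matrix.of fun i j => pderiv j (PP k i)) =
      Matrix.of ![fun j => fC x y g D * pderiv j x + x * pderiv j (fC x y g D),
        fun j => pderiv j (ft x y g D), fun j => pderiv j (ftau x y g D),
        fun j => pderiv j (fa x y g D)] := by
    ext1 i j
    fin_cases i
    · simp only [Matrix.of_apply, PP]
      simp only [Fin.zero_eta, Matrix.cons_val_zero, fc, Derivation.leibniz, smul_eq_mul]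
      ring
    · rfl
    · rfl
    · rfl
  rw [e]
  have hJ : ∀ j, pderiv j (fC x y g D) = pderiv j (fJ x y g)
      - 6 * fK x y g D * pderiv j (fW x y)
      + (12 * fK x y g D ^ 2 - 6 * fW x y) * pderiv j (fK x y g D) := fun j => d_C (pderiv j) hC
  have p01 : pderiv (0 : Fin 4) x = 1 := by rw [hx]; simp
  have p1x : pderiv (1 : Fin 4) x = 0 := by rw [hx]; simp [pderiv_X]
  have p2x : pderiv (2 : Fin 4) x = 0 := by rw [hx]; simp [pderiv_X]
  have p3x : pderiv (3 : Fin 4) x = 0 := by rw [hx]; simp [pderiv_X]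
  have p1y : pderiv (1 : Fin 4) y = 1 := by rw [hy]; simp
  have p2y : pderiv (2 : Fin 4) y = 0 := by rw [hy]; simp [pderiv_X]
  have p3y : pderiv (3 : Fin 4) y = 0 := by rw [hy]; simp [pderiv_X]
  have p2g : pderiv (2 : Fin 4) g = 1 := by rw [hg]; simp
  have p3g : pderiv (3 : Fin 4) g = 0 := by rw [hg]; simp [pderiv_X]
  have p2D : pderiv (2 : Fin 4) D = 0 := by rw [hD]; simp [pderiv_X]
  have p3D : pderiv (3 : Fin 4) D = 1 := by rw [hD]; simp
  have hb := det_base x (fW x y) (fK x y g D) (fun j => pderiv j x) (fun j => pderiv j (fW x y))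
    (fun j => pderiv j (fK x y g D)) (fun j => pderiv j (fC x y g D)) p01 p1x p2x p3x
    (by
      simp only [fW, map_add, Derivation.leibniz, smul_eq_mul, d4, Derivation.map_one_eq_zero,
        p1x, p1y]
      ring)
    (by
      simp only [fW, map_add, Derivation.leibniz, smul_eq_mul, d4, Derivation.map_one_eq_zero,
        p2x, p2y]
      ring)
    (by
      simp only [fW, map_add, Derivation.leibniz, smul_eq_mul, d4, Derivation.map_one_eq_zero,
        p3x, p3y]
      ring)
    (by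
      have c57 : pderiv (3 : Fin 4) (-57 : MvPolynomial (Fin 4) k) = 0 := by
        have := (pderiv (3 : Fin 4) : Derivation k (MvPolynomial (Fin 4) k) _).map_intCast (-57)
        simpa using this
      have c40 : pderiv (3 : Fin 4) (40 : MvPolynomial (Fin 4) k) = 0 := by
        simpa using (pderiv (3 : Fin 4) : Derivation k (MvPolynomial (Fin 4) k) _).map_natCast 40
      simp only [fK, fp, fk, map_add, map_sub, Derivation.leibniz, Derivation.leibniz_pow,
        smul_eq_mul, d2, d4, d6, c57, c40, Derivation.map_one_eq_zero, p3x, p3y, p3g, p3D]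
      ring)
    (by
      have hJ2 : pderiv (2 : Fin 4) (fJ x y g) = 2 * x ^ 4 := by
        have c18 : pderiv (2 : Fin 4) (18 : MvPolynomial (Fin 4) k) = 0 := by
          simpa using (pderiv (2 : Fin 4) : Derivation k (MvPolynomial (Fin 4) k) _).map_natCast 18
        have c76 : pderiv (2 : Fin 4) (76 : MvPolynomial (Fin 4) k) = 0 := by
          simpa using (pderiv (2 : Fin 4) : Derivation k (MvPolynomial (Fin 4) k) _).map_natCast 76
        simp only [fJ, map_add, map_sub, Derivation.leibniz, Derivation.leibniz_pow,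
          smul_eq_mul, d2, d3, d4, d6, c18, c76, Derivation.map_one_eq_zero, p2x, p2y, p2g]
        ring
      have hW2 : pderiv (2 : Fin 4) (fW x y) = 0 := by
        simp only [fW, map_add, Derivation.leibniz, smul_eq_mul, d4, Derivation.map_one_eq_zero,
          p2x, p2y]
        ring
      show pderiv (2 : Fin 4) (fC x y g D) = _
      rw [hJ, hJ2, hW2]
      ring)
    (by
      have hJ3 : pderiv (3 : Fin 4) (fJ x y g) = 0 := by
        have c18 : pderiv (3 : Fin 4) (18 : MvPolynomial (Fin 4) k) = 0 := by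
          simpa using (pderiv (3 : Fin 4) : Derivation k (MvPolynomial (Fin 4) k) _).map_natCast 18
        have c76 : pderiv (3 : Fin 4) (76 : MvPolynomial (Fin 4) k) = 0 := by
          simpa using (pderiv (3 : Fin 4) : Derivation k (MvPolynomial (Fin 4) k) _).map_natCast 76
        simp only [fJ, map_add, map_sub, Derivation.leibniz, Derivation.leibniz_pow,
          smul_eq_mul, d2, d3, d4, d6, c18, c76, Derivation.map_one_eq_zero, p3x, p3y, p3g]
        ring
      have hW3 : pderiv (3 : Fin 4) (fW x y) = 0 := by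
        simp only [fW, map_add, Derivation.leibniz, smul_eq_mul, d4, Derivation.map_one_eq_zero,
          p3x, p3y]
        ring
      show pderiv (3 : Fin 4) (fC x y g D) = _
      rw [hJ, hJ3, hW3]
      ring)
  rw [hb] at h
  have hx0 : x ^ 11 ≠ 0 := pow_ne_zero _ (by rw [hx]; exact X_ne_zero 0)
  apply mul_left_cancel₀ hx0
  rw [h]
  ring

end poly

end Pool.Agent.H741JC
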