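import Pool.Agent.H741JC.Jac
import Pool.Agent.H741JC.Hom

/-!
# Chamberland's injectivity conjecture fails

`keller`, `collision`: the polynomial map `PP` of four-space has the constant Jacobian determinant
`64`, and it takes the same value at `(1, 0, 0, 0)` and `(-1, 0, -3, 5/2)`.
-/

set_option autoImplicit false

namespace Pool.Agent.H741JC

open MvPolynomial Matrix

section nat
variable {A B : Type*} [CommRing A] [CommRing B] (φ : A →+* B) (X y g D : A)

theorem map_fc : φ (fc X y g D) = fc (φ X) (φ y) (φ g) (φ D) := by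
  simp only [fc, fC, fc1, fR, fR2, fq, fk, fp, map_add, map_sub, map_mul, map_pow, map_neg,
    map_one, map_ofNat]

theorem map_ft : φ (ft X y g D) = ft (φ X) (φ y) (φ g) (φ D) := by
  simp only [ft, ft0, fS, fT2, fW, fR2, fq, fk, fp, map_add, map_sub, map_mul, map_pow, map_neg,
    map_one, map_ofNat]

theorem map_ftau : φ (ftau X y g D) = ftau (φ X) (φ y) (φ g) (φ D) := by
  simp only [ftau, ft, ft0, fS, fT2, fW, fC, fc1, fR, fR2, fq, fk, fp, map_add, map_sub, map_mul,
    map_pow, map_neg, map_one, map_ofNat]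

theorem map_fa : φ (fa X y g D) = fa (φ X) (φ y) (φ g) (φ D) := by
  simp only [fa, fr, fr0, fT2, fW, fR2, fq, fk, fp, map_add, map_sub, map_mul,
    map_pow, map_neg, map_one, map_ofNat]

end nat

/-- the values of the map -/
theorem eval_PP {k : Type*} [CommRing k] (w : Fin 4 → k) (i : Fin 4) :
    eval w (PP k i) = ![fc (w 0) (w 1) (w 2) (w 3), ft (w 0) (w 1) (w 2) (w 3),
      ftau (w 0) (w 1) (w 2) (w 3), fa (w 0) (w 1) (w 2) (w 3)] i := by
  fin_cases i
  · simp [PP, map_fc]
  · simp [PP, map_ft]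
  · simp [PP, map_ftau]
  · simp [PP, map_fa]

/-- the two points -/
def ptA : Fin 4 → ℝ := ![1, 0, 0, 0]
noncomputable def ptB : Fin 4 → ℝ := ![-1, 0, -3, 5 / 2]

theorem collision (i : Fin 4) : eval ptA (PP ℝ i) = eval ptB (PP ℝ i) := by
  rw [eval_PP, eval_PP]
  fin_cases i
  · simp [ptA, ptB, fc, fC, fc1, fR, fR2, fq, fk, fp]; norm_num
  · simp [ptA, ptB, ft, ft0, fS, fT2, fW, fR2, fq, fk, fp]; norm_num
  · simp [ptA, ptB, ftau, ft, ft0, fS, fT2, fW, fc1, fR, fR2, fq, fk, fp]; norm_num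
  · simp [ptA, ptB, fa, fr, fr0, fT2, fW, fR2, fq, fk, fp]; norm_num

/-- A Keller map with a real collision gives a map with unipotent Jacobian matrices which is not
injective. -/
theorem main_of_keller {n : ℕ} (hn : 2 ≤ n) (P : Fin n → MvPolynomial (Fin n) ℝ)
    (hK : ∀ w : Fin n → ℂ, (Matrix.of fun i j => aeval w (pderiv j (P i))).det ≠ 0)
    (a b : Fin n → ℝ) (hab : a ≠ b) (hF : ∀ i, eval a (P i) = eval b (P i)) :
    ∃ (M : ℕ) (_ : 2 ≤ M) (f : (Fin M → ℝ) → (Fin M → ℝ)), ContDiff ℝ 1 f ∧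
      (∀ x z, Polynomial.aeval (z : ℂ) (LinearMap.toMatrix' ((fderiv ℝ f x :
        (Fin M → ℝ) →L[ℝ] (Fin M → ℝ)) : (Fin M → ℝ) →ₗ[ℝ] (Fin M → ℝ))).charpoly = 0 → z = 1) ∧
      ¬ Function.Injective f := by
  classical
  set L : Matrix (Fin n) (Fin n) ℝ := Matrix.of fun i j => coeff 0 (pderiv j (P i)) with hLdef
  have hLC : L.map (algebraMap ℝ ℂ) = Matrix.of fun i j => aeval (fun _ => (0 : ℂ))
      (pderiv j (P i)) := by
    ext i j
    simp only [hLdef, Matrix.map_apply, Matrix.of_apply]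
    have h := eval_ofReal (pderiv j (P i)) (fun _ => (0 : ℝ))
    simp only [Complex.ofReal_zero] at h
    rw [h]
    have h2 : eval (fun _ => (0 : ℝ)) (pderiv j (P i)) = coeff 0 (pderiv j (P i)) := by
      rw [MvPolynomial.eval_zero', MvPolynomial.constantCoeff_eq]
    rw [h2]
    rfl
  have hLdet : L.det ≠ 0 := by
    intro h
    apply hK (fun _ => 0)
    rw [← hLC]
    have := RingHom.map_det (algebraMap ℝ ℂ) L
    rw [h, map_zero] at this
    exact this.symm
  have hinv : L⁻¹ * L = 1 := Matrix.nonsing_inv_mul L (isUnit_iff_ne_zero.2 hLdet)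
  set P' : Fin n → MvPolynomial (Fin n) ℝ := fun i => ∑ k, C (L⁻¹ i k) * P k with hP'
  have hpd : ∀ i j, pderiv j (P' i) = ∑ k, C (L⁻¹ i k) * pderiv j (P k) := by
    intro i j
    simp only [hP', map_sum, pderiv_C_mul]
  set N : ℕ := (∑ i, (P' i).totalDegree) + 1 with hN
  have hNpos : 0 < N := Nat.succ_pos _
  have hdeg : ∀ i, (P' i).totalDegree ≤ N + 1 := by
    intro i
    have := Finset.single_le_sum (f := fun i => (P' i).totalDegree) (fun _ _ => Nat.zero_le _)
      (Finset.mem_univ i)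
    change (P' i).totalDegree ≤ ∑ i, (P' i).totalDegree at this
    omega
  have hL' : ∀ i j, coeff 0 (pderiv j (P' i)) = if i = j then 1 else 0 := by
    intro i j
    rw [hpd, coeff_sum]
    simp only [coeff_C_mul]
    have := congrFun (congrFun hinv i) j
    rw [Matrix.mul_apply, Matrix.one_apply] at this
    exact this
  have hK' : ∀ w : Fin n → ℂ, (Matrix.of fun i j => aeval w (pderiv j (P' i))).det ≠ 0 := by
    intro w
    have e : (Matrix.of fun i j => aeval w (pderiv j (P' i))) =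
        (L⁻¹).map (algebraMap ℝ ℂ) * (Matrix.of fun i j => aeval w (pderiv j (P i))) := by
      ext i j
      simp only [Matrix.of_apply, hpd, map_sum, map_mul, Matrix.mul_apply, Matrix.map_apply]
      refine Finset.sum_congr rfl fun k _ => ?_
      rw [aeval_C]
    rw [e, Matrix.det_mul]
    refine mul_ne_zero ?_ (hK w)
    have h1 := RingHom.map_det (algebraMap ℝ ℂ) (L⁻¹)
    have h2 : (algebraMap ℝ ℂ) (L⁻¹).det ≠ 0 := by
      rw [Ne, map_eq_zero]
      intro h3
      have := congrArg Matrix.det hinv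
      rw [Matrix.det_mul, h3, zero_mul, Matrix.det_one] at this
      exact zero_ne_one this
    rw [h1] at h2
    exact h2
  have hF' : ∀ i, eval a (P' i) = eval b (P' i) := by
    intro i
    simp only [hP', map_sum, map_mul, hF]
    simp
  refine ⟨N * n, ?_, GG N hNpos P', contDiff_GG N hNpos P', ?_, ?_⟩
  · calc 2 ≤ n := hn
      _ = 1 * n := (one_mul n).symm
      _ ≤ N * n := Nat.mul_le_mul_right n hNpos
  · intro x z hz
    rw [(hasFDerivAt_GG N hNpos P' x).fderiv] at hz
    exact eigen_one N hNpos P' hdeg hL' hK' x z hz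
  · exact not_injective_GG N hNpos P' hdeg hL' a b hab hF'

/-- The explicit map gives a counterexample with all eigenvalues equal to one. -/
theorem main : ∃ (M : ℕ) (_ : 2 ≤ M) (f : (Fin M → ℝ) → (Fin M → ℝ)), ContDiff ℝ 1 f ∧
      (∀ x z, Polynomial.aeval (z : ℂ) (LinearMap.toMatrix' ((fderiv ℝ f x :
        (Fin M → ℝ) →L[ℝ] (Fin M → ℝ)) : (Fin M → ℝ) →ₗ[ℝ] (Fin M → ℝ))).charpoly = 0 → z = 1) ∧
      ¬ Function.Injective f := by
  refine main_of_keller (n := 4) (by norm_num) (PP ℝ) ?_ ptA ptB ?_ collision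
  · intro w
    have h := keller ℝ
    have h1 := congrArg (aeval w : MvPolynomial (Fin 4) ℝ →ₐ[ℝ] ℂ) h
    have h2 : (aeval w : MvPolynomial (Fin 4) ℝ →ₐ[ℝ] ℂ)
        (Matrix.of fun i j => pderiv j (PP ℝ i)).det =
        (Matrix.of fun i j => aeval w (pderiv j (PP ℝ i))).det := by
      have := RingHom.map_det (aeval w : MvPolynomial (Fin 4) ℝ →ₐ[ℝ] ℂ).toRingHom
        (Matrix.of fun i j => pderiv j (PP ℝ i))
      exact this
    rw [← h2, h1, map_ofNat]
    norm_num
  · intro h
    have := congrFun h 0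
    simp [ptA, ptB] at this
    norm_num at this

end Pool.Agent.H741JC
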